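import Pool.Agent.Helper83_CNED.Stmt

/-!
Squad CNED, module ACLUG: the norm of the derivative is an upper gradient on almost all segments.
-/

open MeasureTheory Set Topology Filter

open scoped ENNReal

noncomputable section

namespace Pool.Agent.Helper83_CNED.H1

/-- almost every point of almost every line -/
theorem ae_line {P : Eu 3 → Prop} (h : ∀ᵐ x : Eu 3, P x) (i : Fin 3) :
    ∀ᵐ p : Eu 3, ∀ᵐ r : ℝ, P (line p i r) := by
  set s : Set (Eu 3) := (toMeasurable volume {x : Eu 3 | ¬ P x})ᶜ with hs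
  have hms : MeasurableSet s := (measurableSet_toMeasurable _ _).compl
  have hsub : ∀ x ∈ s, P x := by
    intro x hx
    by_contra hcon
    exact hx (subset_toMeasurable _ _ hcon)
  have h0 : ∀ᵐ x : Eu 3, x ∈ s := by
    rw [ae_iff]
    have : {x : Eu 3 | x ∉ s} = toMeasurable volume {x : Eu 3 | ¬ P x} := by
      ext x; simp [hs]
    rw [this, measure_toMeasurable]
    exact h
  have h1 := (ae_ae_add_linearMap_mem_iff
    (LinearMap.toSpanSingleton ℝ (Eu 3) (EuclideanSpace.single i (1 : ℝ)))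
    (volume : Measure ℝ) (volume : Measure (Eu 3)) hms).2 h0
  filter_upwards [h1] with p hp
  have h2 := (measurePreserving_sub_right (volume : Measure ℝ) (p i)).quasiMeasurePreserving.ae hp
  filter_upwards [h2] with r hr
  apply hsub
  have : p + (LinearMap.toSpanSingleton ℝ (Eu 3) (EuclideanSpace.single i (1 : ℝ))) (r - p i)
      = line p i r := by
    simp [line, LinearMap.toSpanSingleton_apply]
  rw [← this]
  exact hr

/-- a composition with a `1`-Lipschitz function -/
theorem ac_comp {F : ℝ → Eu 3} {φ : ℝ → ℝ} {s t : ℝ} (hF : AbsolutelyContinuousOnInterval F s t)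
    (h : ∀ x y, dist (φ x) (φ y) ≤ dist (F x) (F y)) : AbsolutelyContinuousOnInterval φ s t := by
  rw [absolutelyContinuousOnInterval_iff] at hF ⊢
  intro ε hε
  obtain ⟨δ, hδ, h1⟩ := hF ε hε
  refine ⟨δ, hδ, fun E hE hlt => ?_⟩
  exact lt_of_le_of_lt (Finset.sum_le_sum fun i _ => h _ _) (h1 E hE hlt)

/-- the length bound for absolutely continuous curves -/
theorem edist_le_of_ac {F : ℝ → Eu 3} {s t : ℝ} (hst : s ≤ t)
    (hF : AbsolutelyContinuousOnInterval F s t) (G : ℝ → ℝ≥0∞)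
    (h : ∀ᵐ r : ℝ, r ∈ Ioo s t → ∃ v, HasDerivAt F v r ∧ ‖v‖ₑ ≤ G r) :
    edist (F s) (F t) ≤ ∫⁻ r in Ioo s t, G r := by
  by_cases hw : F t - F s = 0
  · have : F s = F t := (sub_eq_zero.1 hw).symm
    rw [this, edist_self]
    exact zero_le
  have hn : ‖F t - F s‖ ≠ 0 := norm_ne_zero_iff.2 hw
  set u : Eu 3 := (‖F t - F s‖)⁻¹ • (F t - F s) with hu
  have hu1 : ‖u‖ = 1 := by
    rw [hu, norm_smul, norm_inv, norm_norm, inv_mul_cancel₀ hn]
  set φ : ℝ → ℝ := fun r => inner ℝ u (F r) with hφ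
  have hdist : ∀ x y, dist (φ x) (φ y) ≤ dist (F x) (F y) := by
    intro x y
    rw [dist_eq_norm, dist_eq_norm, hφ]
    simp only
    rw [← inner_sub_right]
    calc ‖inner ℝ u (F x - F y)‖ ≤ ‖u‖ * ‖F x - F y‖ := norm_inner_le_norm _ _
      _ = ‖F x - F y‖ := by rw [hu1, one_mul]
  have hac := ac_comp hF hdist
  have hint := hac.integral_deriv_eq_sub
  have hval : φ t - φ s = ‖F t - F s‖ := by
    rw [hφ]
    simp only
    rw [← inner_sub_right, hu, inner_smul_left, real_inner_self_eq_norm_sq]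
    simp only [conj_trivial]
    field_simp
  have h1 : edist (F s) (F t) = ‖φ t - φ s‖ₑ := by
    rw [hval, edist_comm, edist_eq_enorm_sub, enorm_norm]
  rw [h1, ← hint, intervalIntegral.integral_of_le hst, integral_Ioc_eq_integral_Ioo]
  refine (enorm_integral_le_lintegral_enorm _).trans ?_
  apply lintegral_mono_ae
  rw [ae_restrict_iff' measurableSet_Ioo]
  filter_upwards [h] with r hr hmem
  obtain ⟨v, hv, hle⟩ := hr hmem
  have hd : HasDerivAt φ (inner ℝ u v) r := by
    have := (hasDerivAt_const r u).inner ℝ hv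
    simpa [hφ] using this
  rw [hd.deriv]
  refine le_trans ?_ hle
  rw [← ofReal_norm, ← ofReal_norm]
  apply ENNReal.ofReal_le_ofReal
  calc ‖inner ℝ u v‖ ≤ ‖u‖ * ‖v‖ := norm_inner_le_norm _ _
    _ = ‖v‖ := by rw [hu1, one_mul]

theorem aclug : AclUgStmt := by
  intro K f U hU hf i a b hab
  obtain ⟨-, -, hacl, hdiff⟩ := hf
  -- the closed boxes
  have hbox : ∀ n : ℕ, {x : Eu 3 | ∀ j, x j ∈ Icc (a j + 1 / ((n : ℝ) + 1)) (b j - 1 / ((n : ℝ) + 1))} ⊆ U := by
    intro n x hx
    apply hab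
    intro j
    have hp : (0 : ℝ) < 1 / ((n : ℝ) + 1) := by positivity
    have := hx j
    exact ⟨by linarith [this.1], by linarith [this.2]⟩
  have hA : ∀ n : ℕ, a i + 1 / ((n : ℝ) + 1) < b i - 1 / ((n : ℝ) + 1) →
      ∀ᵐ p : Eu 3, (∀ j, j ≠ i → p j ∈ Icc (a j + 1 / ((n : ℝ) + 1)) (b j - 1 / ((n : ℝ) + 1))) →
        AbsolutelyContinuousOnInterval (fun t => f (line p i t))
          (a i + 1 / ((n : ℝ) + 1)) (b i - 1 / ((n : ℝ) + 1)) := by
    intro n hlt
    have h1 := ae_line (hacl _ _ (hbox n) i) i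
    filter_upwards [h1] with p hp hj
    obtain ⟨r, hr1, hr2⟩ : ∃ r : ℝ, r ∈ Icc (a i + 1 / ((n : ℝ) + 1)) (b i - 1 / ((n : ℝ) + 1)) ∧
        ((∀ j, (line p i r) j ∈ Icc (a j + 1 / ((n : ℝ) + 1)) (b j - 1 / ((n : ℝ) + 1))) →
        AbsolutelyContinuousOnInterval (fun t => f (line (line p i r) i t))
          (a i + 1 / ((n : ℝ) + 1)) (b i - 1 / ((n : ℝ) + 1))) := by
      by_contra hcon
      push Not at hcon
      have hsub : Icc (a i + 1 / ((n : ℝ) + 1)) (b i - 1 / ((n : ℝ) + 1)) ⊆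
          {r : ℝ | ¬ ((∀ j, (line p i r) j ∈ Icc (a j + 1 / ((n : ℝ) + 1)) (b j - 1 / ((n : ℝ) + 1))) →
          AbsolutelyContinuousOnInterval (fun t => f (line (line p i r) i t))
          (a i + 1 / ((n : ℝ) + 1)) (b i - 1 / ((n : ℝ) + 1)))} := by
        intro r hr hc
        exact (hcon r hr).2 (hc (hcon r hr).1)
      have h0 : volume (Icc (a i + 1 / ((n : ℝ) + 1)) (b i - 1 / ((n : ℝ) + 1))) = 0 :=
        measure_mono_null hsub (ae_iff.1 hp)
      rw [Real.volume_Icc, ENNReal.ofReal_eq_zero] at h0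
      linarith
    have h3 := hr2 (by
      intro j
      by_cases hji : j = i
      · subst hji; rw [line_same]; exact hr1
      · rw [line_ne p hji]; exact hj j hji)
    simpa only [line_line] using h3
  have hA' : ∀ᵐ p : Eu 3, ∀ n : ℕ, a i + 1 / ((n : ℝ) + 1) < b i - 1 / ((n : ℝ) + 1) →
      (∀ j, j ≠ i → p j ∈ Icc (a j + 1 / ((n : ℝ) + 1)) (b j - 1 / ((n : ℝ) + 1))) →
        AbsolutelyContinuousOnInterval (fun t => f (line p i t))
          (a i + 1 / ((n : ℝ) + 1)) (b i - 1 / ((n : ℝ) + 1)) := by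
    rw [ae_all_iff]
    intro n
    by_cases hlt : a i + 1 / ((n : ℝ) + 1) < b i - 1 / ((n : ℝ) + 1)
    · filter_upwards [hA n hlt] with p hp _
      exact hp
    · exact Eventually.of_forall fun p h => absurd h hlt
  have hD := ae_line hdiff i
  filter_upwards [hA', hD] with p hp hd hj s t has hst htb
  -- choose n
  have htend : Tendsto (fun n : ℕ => 1 / ((n : ℝ) + 1)) atTop (𝓝 0) := tendsto_one_div_add_atTop_nhds_zero_nat
  have ev : ∀ᶠ n : ℕ in atTop, (∀ j, j ≠ i → a j + 1 / ((n : ℝ) + 1) ≤ p j ∧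
      p j ≤ b j - 1 / ((n : ℝ) + 1)) ∧ a i + 1 / ((n : ℝ) + 1) < s ∧ t < b i - 1 / ((n : ℝ) + 1) := by
    have e1 : ∀ c : ℝ, 0 < c → ∀ᶠ n : ℕ in atTop, 1 / ((n : ℝ) + 1) < c := fun c hc =>
      htend.eventually_lt_const hc
    have e2 : ∀ᶠ n : ℕ in atTop, ∀ j, j ≠ i → a j + 1 / ((n : ℝ) + 1) ≤ p j ∧
        p j ≤ b j - 1 / ((n : ℝ) + 1) := by
      rw [eventually_all]
      intro j
      by_cases hji : j = i
      · exact Eventually.of_forall fun n h => absurd hji h
      · filter_upwards [e1 (p j - a j) (by linarith [(hj j hji).1]),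
          e1 (b j - p j) (by linarith [(hj j hji).2])] with n h1 h2 _
        exact ⟨by linarith, by linarith⟩
    filter_upwards [e2, e1 (s - a i) (by linarith), e1 (b i - t) (by linarith)] with n h1 h2 h3
    exact ⟨h1, by linarith, by linarith⟩
  obtain ⟨n, h1, h2, h3⟩ := ev.exists
  have hac := (hp n (by linarith) h1).mono (c := s) (d := t) (by
    rw [uIcc_of_le hst, uIcc_of_le (by linarith)]
    exact Icc_subset_Icc (by linarith) (by linarith))
  apply edist_le_of_ac hst hac (fun r => ‖fderiv ℝ f (line p i r)‖ₑ)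
  filter_upwards [hd] with r hr hmem
  have hU' : line p i r ∈ U := by
    apply hab
    intro j
    by_cases hji : j = i
    · subst hji; rw [line_same]; exact ⟨by linarith [hmem.1], by linarith [hmem.2]⟩
    · rw [line_ne p hji]; exact hj j hji
  have hdf := (hr hU').1
  have hline : HasDerivAt (fun r => line p i r) (EuclideanSpace.single i (1 : ℝ)) r := by
    unfold line
    have h4 : HasDerivAt (fun t : ℝ => t - p i) 1 r := (hasDerivAt_id r).sub_const _
    have h5 := (h4.smul_const (EuclideanSpace.single i (1 : ℝ))).const_add p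
    simpa using h5
  refine ⟨fderiv ℝ f (line p i r) (EuclideanSpace.single i (1 : ℝ)),
    hdf.hasFDerivAt.comp_hasDerivAt r hline, ?_⟩
  rw [← ofReal_norm, ← ofReal_norm]
  apply ENNReal.ofReal_le_ofReal
  refine (ContinuousLinearMap.le_opNorm _ _).trans ?_
  rw [PiLp.norm_single]
  simp

end Pool.Agent.Helper83_CNED.H1
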