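import Pool.Agent.Helper1_CNED.Aclug

/-!
Squad CNED, module GLOB: `g` is an upper gradient on almost every line.
-/

open MeasureTheory Set Topology Filter

open scoped ENNReal

noncomputable section

namespace Pool.Agent.Helper83_CNED.H1

theorem measurable_coord (j : Fin 3) : Measurable (fun x : Eu 3 => x j) :=
  (by fun_prop : Continuous (fun x : Eu 3 => x j)).measurable

theorem measurable_idx (m : ℕ) : Measurable (idx m) := by
  rw [measurable_pi_iff]
  intro j
  exact Int.measurable_floor.comp ((measurable_coord j).const_mul _)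

theorem measurable_jump (f : Eu 3 ≃ₜ Eu 3) (m : ℕ) (i : Fin 3) (s : Bool) (k : ℤ) :
    Measurable (fun p => jump f m i s k p) := by
  unfold jump
  refine Measurable.ite ?_ ?_ measurable_const
  · have h1 : MeasurableSet (idx m ⁻¹' {z : Fin 3 → ℤ | Odd (lab m (Function.update z i k)) ∧
        Even (lab m (Function.update z i k + sg s • ue i))}) :=
      measurable_idx m (Set.to_countable _).measurableSet
    have h2 : MeasurableSet (idx (m + 1) ⁻¹' {z : Fin 3 → ℤ | ∀ j, j ≠ i →
        mid (MM m) (z j % MM m)}) :=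
      measurable_idx (m + 1) (Set.to_countable _).measurableSet
    have : {p : Eu 3 | Odd (lab m (Function.update (idx m p) i k)) ∧
      Even (lab m (Function.update (idx m p) i k + sg s • ue i)) ∧
      (∀ j, j ≠ i → mid (MM m) (⌊(RR (m + 1) : ℝ) * p j⌋ % MM m))} =
      (idx m ⁻¹' {z : Fin 3 → ℤ | Odd (lab m (Function.update z i k)) ∧
        Even (lab m (Function.update z i k + sg s • ue i))}) ∩
      (idx (m + 1) ⁻¹' {z : Fin 3 → ℤ | ∀ j, j ≠ i → mid (MM m) (z j % MM m)}) := by
      ext p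
      simp only [mem_ofPred_eq, mem_inter_iff, mem_preimage, idx]
      tauto
    rw [this]
    exact h1.inter h2
  · have c1 : Continuous (fun p : Eu 3 => f (line p i (tf m s k))) :=
      f.continuous.comp (continuous_line_left i _)
    have c2 : Continuous (fun p : Eu 3 => f (line p i (tg m s k))) :=
      f.continuous.comp (continuous_line_left i _)
    exact (c1.edist c2).measurable

theorem measurable_err (f : Eu 3 ≃ₜ Eu 3) (m : ℕ) (i : Fin 3) :
    Measurable (fun p => err f m i p) := by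
  unfold err
  apply Measurable.tsum
  intro k
  exact (measurable_jump f m i true k).add (measurable_jump f m i false k)

/-- the jumps do not depend on the coordinate `i` -/
theorem jump_line (f : Eu 3 → Eu 3) (m : ℕ) (i : Fin 3) (s : Bool) (k : ℤ) (p : Eu 3) (r : ℝ) :
    jump f m i s k (line p i r) = jump f m i s k p := by
  unfold jump
  have h1 : Function.update (idx m (line p i r)) i k = Function.update (idx m p) i k := by
    funext j
    by_cases hj : j = i
    · subst hj; simp
    · rw [Function.update_of_ne hj, Function.update_of_ne hj]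
      unfold idx
      simp only [line_ne p hj]
  have h2 : (∀ j, j ≠ i → mid (MM m) (⌊(RR (m + 1) : ℝ) * (line p i r) j⌋ % MM m)) ↔
      (∀ j, j ≠ i → mid (MM m) (⌊(RR (m + 1) : ℝ) * p j⌋ % MM m)) := by
    constructor
    · intro h j hj
      have := h j hj
      rwa [line_ne p hj] at this
    · intro h j hj
      rw [line_ne p hj]
      exact h j hj
  rw [h1, line_line, line_line]
  simp only [h2]

theorem err_line (f : Eu 3 → Eu 3) (m : ℕ) (i : Fin 3) (p : Eu 3) (r : ℝ) :
    err f m i (line p i r) = err f m i p := by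
  unfold err
  congr 1
  funext k
  rw [jump_line, jump_line]

theorem measurableSet_NN (m : ℕ) (i : Fin 3) : MeasurableSet (NN m i) := by
  have : NN m i = (⋂ j : Fin 3, {x : Eu 3 | -3 ≤ x j ∧ x j ≤ 4}) ∩
      ⋃ k : ℤ, {x : Eu 3 | |x i - k / RR m| ≤ 13 / RR (m + 1)} := by
    ext x; simp [NN]
  rw [this]
  apply MeasurableSet.inter
  · apply MeasurableSet.iInter
    intro j
    exact (measurableSet_le measurable_const (measurable_coord j)).inter
      (measurableSet_le (measurable_coord j) measurable_const)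
  · apply MeasurableSet.iUnion
    intro k
    apply measurableSet_le _ measurable_const
    exact (continuous_abs.measurable).comp ((measurable_coord i).sub_const _)

theorem NN_sub (m : ℕ) (i : Fin 3) : NN m i ⊆ Metric.closedBall (0 : Eu 3) 7 := by
  intro x hx
  rw [Metric.mem_closedBall, dist_zero_right, EuclideanSpace.norm_eq]
  apply Real.sqrt_le_iff.2
  refine ⟨by norm_num, ?_⟩
  have h : ∀ j, ‖x j‖ ^ 2 ≤ 16 := by
    intro j
    rw [Real.norm_eq_abs, sq_abs]
    have := hx.1 j
    nlinarith [this.1, this.2]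
  rw [Fin.sum_univ_three]
  have h0 := h 0
  have h1 := h 1
  have h2 := h 2
  linarith

/-- good points are not close to the grid -/
theorem not_mem_NN {m : ℕ} {i : Fin 3} {x : Eu 3} (h : GoodC m (x i)) : x ∉ NN m i := by
  rintro ⟨-, k, hk⟩
  obtain ⟨⟨h1, h2⟩, -⟩ := h
  have hR := RRr_pos (m + 1)
  have hRm := RRr_pos m
  have hM := MMr_pos m
  set q : ℤ := ⌊(RR (m + 1) : ℝ) * x i⌋ with hq
  have hq1 : (q : ℝ) ≤ (RR (m + 1) : ℝ) * x i := Int.floor_le _
  have hq2 : (RR (m + 1) : ℝ) * x i < q + 1 := Int.lt_floor_add_one _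
  have hmul : (RR (m + 1) : ℝ) * (x i - k / RR m) = (RR (m + 1) : ℝ) * x i - k * MM m := by
    rw [RRr_succ]; field_simp
  have habs : |(RR (m + 1) : ℝ) * x i - k * MM m| ≤ 13 := by
    rw [← hmul, abs_mul, abs_of_pos hR]
    calc (RR (m + 1) : ℝ) * |x i - k / RR m| ≤ (RR (m + 1) : ℝ) * (13 / RR (m + 1)) :=
          mul_le_mul_of_nonneg_left hk hR.le
      _ = 13 := by field_simp
  rw [abs_le] at habs
  -- in integers
  have e1 : ((k * MM m : ℤ) : ℝ) = (k : ℝ) * MM m := by push_cast; ring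
  have i1 : k * (MM m : ℤ) - 14 < q := by
    have : ((k * (MM m : ℤ) - 14 : ℤ) : ℝ) < q := by
      push_cast; linarith [habs.1]
    exact_mod_cast this
  have i2 : q ≤ k * (MM m : ℤ) + 13 := by
    have : ((q : ℤ) : ℝ) ≤ ((k * (MM m : ℤ) + 13 : ℤ) : ℝ) := by
      push_cast; linarith [habs.2]
    exact_mod_cast this
  have hMi : (112 : ℤ) ≤ MM m := by exact_mod_cast MM_ge m
  -- q = k * M + e with -14 < e <= 13
  obtain ⟨e, he⟩ : ∃ e : ℤ, q = k * (MM m : ℤ) + e := ⟨q - k * MM m, by ring⟩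
  have hmod : q % (MM m : ℤ) = e % (MM m : ℤ) := by
    rw [he, Int.add_comm, Int.add_mul_emod_self_right]
  rw [hmod] at h1 h2
  rcases le_or_gt 0 e with h0 | h0
  · rw [Int.emod_eq_of_lt h0 (by omega)] at h1
    omega
  · have : e % (MM m : ℤ) = e + MM m := by
      rw [← Int.add_emod_right, Int.emod_eq_of_lt (by omega) (by omega)]
    rw [this] at h2
    omega

theorem tendsto_NN (hgood : GoodStmt) {g : Eu 3 → ℝ≥0∞} (hg : Measurable g)
    (hint : ∀ r : ℝ, ∫⁻ x in Metric.closedBall 0 r ∩ UU, g x < ⊤) (i : Fin 3) :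
    Tendsto (fun m => ∫⁻ x in NN m i ∩ UU, g x) atTop (𝓝 0) := by
  set μ : Measure (Eu 3) := volume.restrict (Metric.closedBall 0 7 ∩ UU) with hμ
  have hB : MeasurableSet (Metric.closedBall (0 : Eu 3) 7 ∩ UU) :=
    Metric.isClosed_closedBall.measurableSet.inter isOpen_UU.measurableSet
  have heq : ∀ m, ∫⁻ x in NN m i ∩ UU, g x = ∫⁻ x, (NN m i).indicator g x ∂μ := by
    intro m
    rw [lintegral_indicator (measurableSet_NN m i), hμ, Measure.restrict_restrict (measurableSet_NN m i)]
    congr 2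
    ext x
    constructor
    · rintro ⟨h1, h2⟩
      exact ⟨h1, NN_sub m i h1, h2⟩
    · rintro ⟨h1, -, h2⟩
      exact ⟨h1, h2⟩
  simp_rw [heq]
  have h0 : (0 : ℝ≥0∞) = ∫⁻ _x, 0 ∂μ := by simp
  rw [h0]
  apply tendsto_lintegral_of_dominated_convergence g
  · intro m
    exact hg.indicator (measurableSet_NN m i)
  · intro m
    exact Eventually.of_forall fun x => indicator_le_self _ _ _
  · exact (hint 7).ne
  · have := ae_restrict_of_ae (s := Metric.closedBall 0 7 ∩ UU) hgood
    filter_upwards [this] with x hx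
    apply tendsto_const_nhds.congr'
    filter_upwards [hx i] with m hm
    rw [indicator_of_notMem (not_mem_NN hm)]

theorem liminf_err (hsum : SumStmt) (hgood : GoodStmt) (f : Eu 3 ≃ₜ Eu 3) {g : Eu 3 → ℝ≥0∞}
    (hfg : Hyp f g) (hint : ∀ r : ℝ, ∫⁻ x in Metric.closedBall 0 r ∩ UU, g x < ⊤) (i : Fin 3) :
    ∀ᵐ p : Eu 3, liminf (fun m => err f m i p) atTop = 0 := by
  obtain ⟨C, hC, h1⟩ := hsum
  have hS : MeasurableSet {p : Eu 3 | 0 < p i ∧ p i < 1} :=
    (measurableSet_lt measurable_const (measurable_coord i)).inter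
      (measurableSet_lt (measurable_coord i) measurable_const)
  have ht : Tendsto (fun m => ∫⁻ p in {p : Eu 3 | 0 < p i ∧ p i < 1}, err f m i p) atTop (𝓝 0) := by
    have h2 : Tendsto (fun m => C * ∫⁻ x in NN m i ∩ UU, g x) atTop (𝓝 0) := by
      have := ENNReal.Tendsto.const_mul (tendsto_NN hgood hfg.1 hint i) (Or.inr hC)
      simpa using this
    exact tendsto_of_tendsto_of_tendsto_of_le_of_le tendsto_const_nhds h2 (fun _ => zero_le)
      (fun m => h1 f g hfg m i)
  have hz : ∫⁻ p in {p : Eu 3 | 0 < p i ∧ p i < 1}, liminf (fun m => err f m i p) atTop = 0 := by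
    have := lintegral_liminf_le (μ := volume.restrict {p : Eu 3 | 0 < p i ∧ p i < 1})
      (u := atTop) (f := fun (m : ℕ) (p : Eu 3) => err f m i p) (fun m => measurable_err f m i)
    rw [ht.liminf_eq] at this
    exact le_antisymm this zero_le
  have hm : Measurable (fun p : Eu 3 => liminf (fun m => err f m i p) atTop) :=
    Measurable.liminf (f := fun (m : ℕ) (p : Eu 3) => err f m i p) (fun m => measurable_err f m i)
  rw [lintegral_eq_zero_iff hm] at hz
  have hz' : ∀ᵐ p : Eu 3, p ∈ {p : Eu 3 | 0 < p i ∧ p i < 1} →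
      liminf (fun m => err f m i p) atTop = 0 := (ae_restrict_iff' hS).1 hz
  filter_upwards [ae_line hz' i] with p hp
  obtain ⟨r, hr1, hr2⟩ : ∃ r : ℝ, r ∈ Ioo (0 : ℝ) 1 ∧
      (line p i r ∈ {p : Eu 3 | 0 < p i ∧ p i < 1} →
      liminf (fun m => err f m i (line p i r)) atTop = 0) := by
    by_contra hcon
    push Not at hcon
    have hsub : Ioo (0 : ℝ) 1 ⊆ {r : ℝ | ¬ (line p i r ∈ {p : Eu 3 | 0 < p i ∧ p i < 1} →
      liminf (fun m => err f m i (line p i r)) atTop = 0)} := by
      intro r hr hc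
      exact (hcon r hr).2 (hc (hcon r hr).1)
    have h0 : volume (Ioo (0 : ℝ) 1) = 0 := measure_mono_null hsub (ae_iff.1 hp)
    simp at h0
  have h3 := hr2 (by
    rw [mem_ofPred_eq, line_same]
    exact hr1)
  simpa only [err_line] using h3


theorem lineUG_ae {f : Eu 3 → Eu 3} {g : Eu 3 → ℝ≥0∞} (hfg : Hyp f g) (i : Fin 3) :
    ∀ᵐ p : Eu 3, LineUG f g i p := by
  unfold LineUG
  rw [ae_all_iff]; intro m
  rw [ae_all_iff]; intro a
  rw [ae_all_iff]; intro b
  by_cases hab : ob (fun j => (a j : ℝ) / RR m) (fun j => (b j : ℝ) / RR m) ⊆ UU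
  · have h := hfg.2 i _ _ hab
    unfold UG at h
    exact h.mono fun p hp _ => hp
  · exact Eventually.of_forall fun p h => absurd h hab

theorem le_of_liminf_zero {x y : ℝ≥0∞} {e : ℕ → ℝ≥0∞} (h0 : liminf e atTop = 0)
    (h : ∀ᶠ m in atTop, x ≤ y + e m) : x ≤ y := by
  apply ENNReal.le_of_forall_pos_le_add
  intro ε hε _
  have hfr : ∃ᶠ m in atTop, e m < ε := by
    apply frequently_lt_of_liminf_lt
    · isBoundedDefault
    · rw [h0]
      exact_mod_cast hε
  obtain ⟨m, a1, a2⟩ := (hfr.and_eventually h).exists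
  exact a2.trans (by gcongr)

theorem line_limit1 {E : Type*} [PseudoEMetricSpace E] {F : ℝ → E} (hF : Continuous F) (C : ℝ≥0∞) :
    IsClosed {q : ℝ × ℝ | edist (F q.1) (F q.2) ≤ C} := by
  apply isClosed_le _ continuous_const
  exact (hF.comp continuous_fst).edist (hF.comp continuous_snd)

theorem line_limit2 {D : Set ℝ} (hD : Dense D) {s t : ℝ} (h : s < t) :
    ∃ M, s < M ∧ M < t ∧ ((s, t) : ℝ × ℝ) ∈ closure ((Ioo s M ∩ D) ×ˢ (Ioo M t ∩ D)) := by
  obtain ⟨M, hsM, hMt⟩ := exists_between h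
  refine ⟨M, hsM, hMt, ?_⟩
  rw [closure_prod_eq]
  refine Set.mk_mem_prod ?_ ?_
  · have h5 := closure_mono (hD.open_subset_closure_inter (isOpen_Ioo (a := s) (b := M)))
    rw [closure_Ioo hsM.ne, closure_closure] at h5
    exact h5 (left_mem_Icc.2 hsM.le)
  · have h5 := closure_mono (hD.open_subset_closure_inter (isOpen_Ioo (a := M) (b := t)))
    rw [closure_Ioo hMt.ne, closure_closure] at h5
    exact h5 (right_mem_Icc.2 hMt.le)

/-- passage to the limit on a line -/
theorem line_limit {E : Type*} [PseudoEMetricSpace E] {F : ℝ → E} (hF : Continuous F) {G : ℝ → ℝ≥0∞} {D : Set ℝ} (hD : Dense D)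
    (key : ∀ s t : ℝ, s ≤ t → s ∈ D → t ∈ D → edist (F s) (F t) ≤ ∫⁻ r in Ioo s t, G r)
    (s t : ℝ) (hst : s ≤ t) : edist (F s) (F t) ≤ ∫⁻ r in Ioo s t, G r := by
  rcases hst.eq_or_lt with h | h
  · rw [← h, edist_self]; exact zero_le
  obtain ⟨M, hsM, hMt, hmem⟩ := line_limit2 hD h
  have hcl := line_limit1 hF (∫⁻ r in Ioo s t, G r)
  have hsub : (Ioo s M ∩ D) ×ˢ (Ioo M t ∩ D) ⊆
      {q : ℝ × ℝ | edist (F q.1) (F q.2) ≤ ∫⁻ r in Ioo s t, G r} := by
    intro q hq
    obtain ⟨⟨hx1, hx2⟩, ⟨hy1, hy2⟩⟩ := Set.mem_prod.1 hq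
    refine (key q.1 q.2 (hx1.2.trans hy1.1).le hx2 hy2).trans ?_
    apply lintegral_mono_set
    exact Ioo_subset_Ioo hx1.1.le hy1.2.le
  exact hcl.closure_subset_iff.2 hsub hmem

theorem glob (hsum : SumStmt) (hwalk : WalkStmt) (hgood : GoodStmt) (hnull : NullStmt)
    (heven : EvenStmt) : GlobStmt := by
  intro f g hfg hint i
  have hU : ∀ᵐ x : Eu 3, x ∈ UU := by
    rw [ae_iff]
    exact hnull
  filter_upwards [lineUG_ae hfg i, ae_line hU i, hgood, liminf_err hsum hgood f hfg hint i]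
    with p h1 h2 h3 h4
  have hdense : Dense {r : ℝ | line p i r ∈ UU} := Measure.dense_of_ae h2
  have hG : ∀ᶠ m in atTop, ∀ j, j ≠ i → GoodC m (p j) := by
    rw [eventually_all]
    intro j
    exact (h3 j).mono fun m hm _ => hm
  refine line_limit (F := fun r => f (line p i r)) (G := fun r => UU.indicator g (line p i r))
    (f.continuous.comp (continuous_line_right p i)) hdense ?_
  intro s t hst hs ht
  obtain ⟨m₁, hm₁⟩ := heven.1 _ hs
  obtain ⟨m₂, hm₂⟩ := heven.1 _ ht
  refine le_of_liminf_zero h4 ?_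
  filter_upwards [hG, eventually_ge_atTop m₁, eventually_ge_atTop m₂] with m a1 a2 a3
  exact hwalk f g f.continuous hfg.1 i p m h1 a1 s t hst (hm₁ m a2) (hm₂ m a3)

end Pool.Agent.Helper83_CNED.H1
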